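import Mathlib
import Pool.Agent.X197.HelmB

/-! An exterior Helmholtz field in `ℝ³` whose integrated Lagrangian is positive. -/

open Complex MeasureTheory Set Filter Topology
open scoped Laplacian ContDiff

namespace Pool.Agent.Results.MP_871f9b_an.PositiveLagrangian

open Pool.Agent.X197.Helm

noncomputable section

/-- `V` is near `p` the sublevel set `F ≤ 0` of a smooth function `F` on the open set `U`,
with `F p = 0` and with nonvanishing differential of `F` at `p`. -/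
def LocalDefining (V : Set (EuclideanSpace ℝ (Fin 3))) (p : EuclideanSpace ℝ (Fin 3))
    (F : EuclideanSpace ℝ (Fin 3) → ℝ) (U : Set (EuclideanSpace ℝ (Fin 3))) : Prop :=
  IsOpen U ∧ p ∈ U ∧ ContDiffOn ℝ ∞ F U ∧ F p = 0 ∧ fderiv ℝ F p ≠ 0 ∧
    V ∩ U = {x | x ∈ U ∧ F x ≤ 0}

/-- compact set with nonempty interior and smooth boundary -/
def SmoothCompact (V : Set (EuclideanSpace ℝ (Fin 3))) : Prop :=
  IsCompact V ∧ (interior V).Nonempty ∧ ∀ p ∈ frontier V, ∃ F U, LocalDefining V p F U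

/-- `n` is the outer unit normal of `V` at `p` -/
def OuterUnitNormal (V : Set (EuclideanSpace ℝ (Fin 3))) (p n : EuclideanSpace ℝ (Fin 3)) : Prop :=
  ‖n‖ = 1 ∧ ∃ F U, LocalDefining V p F U ∧ ∃ c : ℝ, 0 < c ∧ ∀ v, fderiv ℝ F p v = c * inner ℝ n v

/-- outgoing radiation condition: `u(x) |x| e^{-i|x|} - f(x/|x|) → 0` as `|x| → ∞`,
with `f` smooth -/
def Radiating (u : EuclideanSpace ℝ (Fin 3) → ℂ) : Prop :=
  ∃ f : EuclideanSpace ℝ (Fin 3) → ℂ, ContDiff ℝ ∞ f ∧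
    Tendsto (fun x => u x * ((‖x‖ : ℂ) * cexp (-(I * ‖x‖))) - f (‖x‖⁻¹ • x))
      (Bornology.cobounded (EuclideanSpace ℝ (Fin 3))) (𝓝 0)

/-- the density `|u|² - |∇u|²` -/
def density (u : EuclideanSpace ℝ (Fin 3) → ℂ) (x : EuclideanSpace ℝ (Fin 3)) : ℝ :=
  ‖u x‖ ^ 2 - ∑ i : Fin 3, ‖fderiv ℝ u x (EuclideanSpace.single i 1)‖ ^ 2

lemma mem_frontier_of (e : ℝ) (he : 0 < e) {p : E3} (hp : p ≠ 0) (h : FF e p = 0) :
    p ∈ frontier (VV e) := by
  rw [frontier_eq_closure_inter_closure]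
  refine ⟨subset_closure (le_of_eq h), ?_⟩
  have hc : Continuous (fun t : ℝ => t • p) := by fun_prop
  have h1 : Tendsto (fun t : ℝ => t • p) (𝓝[>] (1 : ℝ)) (𝓝 p) := by
    have := (hc.tendsto (1 : ℝ)).mono_left (nhdsWithin_le_nhds (s := Ioi (1 : ℝ)))
    rwa [one_smul] at this
  refine mem_closure_of_tendsto h1 ?_
  filter_upwards [self_mem_nhdsWithin] with t ht
  have ht1 : 1 < t := ht
  have ht0 : 0 < t := by linarith
  intro hmem
  have h2 : FF e (t • p) ≤ 0 := hmem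
  simp only [FF, g_smul e p t ht0.ne', norm_smul, Real.norm_eq_abs, abs_of_pos ht0] at h2
  have h3 : ‖p‖ * g e p = 1 := by
    unfold FF at h
    linarith
  nlinarith

lemma localDefining (e : ℝ) {p : E3} (hp : p ≠ 0) (h : FF e p = 0) :
    LocalDefining (VV e) p (FF e) {0}ᶜ := by
  refine ⟨isOpen_compl_singleton, hp, fun x hx => (contDiffAt_FF e x hx).contDiffWithinAt, h,
    ?_, ?_⟩
  · intro h0
    have h1 := fderiv_radial e p hp
    rw [h0] at h1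
    unfold FF at h
    simp only [zero_apply] at h1
    linarith
  · ext x
    constructor
    · rintro ⟨h1, h2⟩
      exact ⟨h2, h1⟩
    · rintro ⟨h1, h2⟩
      exact ⟨h2, h1⟩

/-- the pole -/
def pole (e : ℝ) : E3 := EuclideanSpace.single 2 (1 / (e + 1 / 4))

lemma norm_pole (e : ℝ) (he : 0 < e) : ‖pole e‖ = 1 / (e + 1 / 4) := by
  unfold pole
  rw [PiLp.norm_single, Real.norm_eq_abs, abs_of_pos (by positivity)]

lemma pole_two (e : ℝ) : (pole e) 2 = 1 / (e + 1 / 4) := by simp [pole]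

lemma pole_ne (e : ℝ) (he : 0 < e) : pole e ≠ 0 := by
  intro h
  have h1 := norm_pole e he
  rw [h, norm_zero] at h1
  have : 0 < 1 / (e + 1 / 4) := by positivity
  linarith

lemma g_of_cone (e : ℝ) (x : E3) (h : 7 / 8 < (x 2) ^ 2 / ‖x‖ ^ 2) : g e x = e + 1 / 4 := by
  unfold g
  rw [Real.smoothTransition.one_of_one_le]
  · ring
  · linarith

lemma cone_pole (e : ℝ) (he : 0 < e) : 7 / 8 < ((pole e) 2) ^ 2 / ‖pole e‖ ^ 2 := by
  rw [pole_two, norm_pole e he, div_self (by positivity)]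
  norm_num

lemma FF_pole (e : ℝ) (he : 0 < e) : FF e (pole e) = 0 := by
  unfold FF
  rw [g_of_cone e _ (cone_pole e he), norm_pole e he]
  field_simp
  ring

lemma fderiv_pole (e : ℝ) (he : 0 < e) (v : E3) :
    fderiv ℝ (FF e) (pole e) v = (e + 1 / 4) * inner ℝ (EuclideanSpace.single 2 (1 : ℝ) : E3) v := by
  have hp := pole_ne e he
  have hr : ‖pole e‖ ≠ 0 := by simpa using hp
  have h2 : ContinuousAt (fun y : E3 => y 2) (pole e) :=
    (EuclideanSpace.proj (𝕜 := ℝ) (2 : Fin 3)).continuous.continuousAt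
  have hq : ContinuousAt (fun y : E3 => (y 2) ^ 2 / ‖y‖ ^ 2) (pole e) :=
    (h2.pow 2).div (continuous_norm.continuousAt.pow 2) (pow_ne_zero 2 hr)
  have hev : ∀ᶠ y in 𝓝 (pole e), 7 / 8 < (y 2) ^ 2 / ‖y‖ ^ 2 :=
    hq.eventually (lt_mem_nhds (cone_pole e he))
  have h1 : HasFDerivAt (fun y : E3 => ‖y‖ * (e + 1 / 4) - 1)
      ((e + 1 / 4) • (‖pole e‖⁻¹ • innerSL ℝ (pole e))) (pole e) :=
    ((hasFDerivAt_nrm (pole e) hp).mul_const (e + 1 / 4)).sub_const 1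
  have h3 : HasFDerivAt (FF e) ((e + 1 / 4) • (‖pole e‖⁻¹ • innerSL ℝ (pole e))) (pole e) := by
    refine h1.congr_of_eventuallyEq ?_
    filter_upwards [hev] with y hy
    unfold FF
    rw [g_of_cone e y hy]
  rw [h3.fderiv]
  simp only [smul_apply, smul_eq_mul, innerSL_apply_apply, norm_pole e he]
  congr 1
  simp only [pole, EuclideanSpace.inner_single_left]
  simp
  field_simp

lemma u_pole (e : ℝ) (he : 0 < e) : uu (pole e) ≠ 0 := by
  have hr0 : (0 : ℝ) < 1 / (e + 1 / 4) := by positivity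
  unfold uu
  rw [pole_two, norm_pole e he]
  set ρ : ℝ := 1 / (e + 1 / 4) with hρ
  have hρc : (ρ : ℂ) ≠ 0 := by exact_mod_cast hr0.ne'
  refine mul_ne_zero hρc ?_
  unfold phi
  refine mul_ne_zero (Complex.exp_ne_zero _) ?_
  intro h
  have h1 : ((ρ⁻¹ ^ 2 : ℝ) : ℂ) + ((ρ⁻¹ ^ 3 : ℝ) : ℂ) * I = 0 := by
    rw [← h]
    push_cast
    ring
  have h2 := congrArg Complex.re h1
  simp [Complex.add_re, Complex.mul_re] at h2
  have h3 : (0 : ℝ) < ρ⁻¹ ^ 2 := by positivity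
  first
    | exact absurd h2 hr0.ne'
    | (norm_cast at h2; simp at h2; exact absurd h2 hr0.ne')

lemma du_pole (e : ℝ) (he : 0 < e) :
    fderiv ℝ uu (pole e) (EuclideanSpace.single 2 (1 : ℝ)) ≠ 0 := by
  rw [(hasFDerivAt_uu _ (pole_ne e he)).fderiv, gu_single, J_apply, pole_two, norm_pole e he]
  have hr0 : (0 : ℝ) < 1 / (e + 1 / 4) := by positivity
  set ρ : ℝ := 1 / (e + 1 / 4) with hρ
  have hρc : (ρ : ℂ) ≠ 0 := by exact_mod_cast hr0.ne'
  have hb : (ρ : ℂ) * (ρ : ℂ)⁻¹ = 1 := mul_inv_cancel₀ hρc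
  have j2 : ((EuclideanSpace.single (2 : Fin 3) (1 : ℝ) : E3) 2) = 1 := by simp
  rw [j2]
  have key : phi ρ * ((1 : ℝ) : ℂ) + (ρ : ℂ) * chi ρ * (ρ : ℂ) =
      cexp (I * ρ) * (((-2 * ρ⁻¹ ^ 2 : ℝ) : ℂ) + ((ρ⁻¹ - 2 * ρ⁻¹ ^ 3 : ℝ) : ℂ) * I) := by
    simp only [phi, chi]
    push_cast
    linear_combination (cexp (I * ρ) * ((I * (ρ : ℂ)⁻¹ - 3 * (ρ : ℂ)⁻¹ ^ 2 - 3 * I * (ρ : ℂ)⁻¹ ^ 3)
      * ((ρ : ℂ) * (ρ : ℂ)⁻¹ + 1))) * hb
  rw [key]
  refine mul_ne_zero (Complex.exp_ne_zero _) ?_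
  intro h
  have h2 := congrArg Complex.re h
  rw [Complex.add_re, Complex.ofReal_re, Complex.mul_re, Complex.ofReal_re, Complex.ofReal_im,
    Complex.I_re, Complex.I_im, Complex.zero_re] at h2
  have h3 : (0 : ℝ) < ρ⁻¹ ^ 2 := by positivity
  linarith

lemma radiating_uu : Radiating uu := by
  refine ⟨fun x => ((x 2 : ℝ) : ℂ), ?_, ?_⟩
  · have : ContDiff ℝ ∞ (J 2) := (J 2).contDiff
    have e : (fun x : E3 => ((x 2 : ℝ) : ℂ)) = J 2 := by
      funext x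
      simp [J_apply]
    rw [e]
    exact this
  · have h1 : Tendsto (fun x : E3 => ‖x‖⁻¹) (Bornology.cobounded E3) (𝓝 0) :=
      tendsto_inv_atTop_zero.comp tendsto_norm_cobounded_atTop
    refine squeeze_zero_norm' ?_ h1
    have h2 : ∀ᶠ x : E3 in Bornology.cobounded E3, 0 < ‖x‖ :=
      tendsto_norm_cobounded_atTop.eventually (eventually_gt_atTop 0)
    filter_upwards [h2] with x hx
    have hxc : (‖x‖ : ℂ) ≠ 0 := by exact_mod_cast hx.ne'
    have hb : (‖x‖ : ℂ) * (‖x‖ : ℂ)⁻¹ = 1 := mul_inv_cancel₀ hxc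
    have he : cexp (I * ‖x‖) * cexp (-(I * ‖x‖)) = 1 := by
      rw [← Complex.exp_add, add_neg_cancel, Complex.exp_zero]
    have key : uu x * ((‖x‖ : ℂ) * cexp (-(I * ‖x‖))) - (((‖x‖⁻¹ • x) 2 : ℝ) : ℂ) =
        ((x 2 * ‖x‖⁻¹ ^ 2 : ℝ) : ℂ) * I := by
      simp only [uu, phi, PiLp.smul_apply, smul_eq_mul]
      push_cast
      linear_combination ((x 2 : ℂ) * ((‖x‖ : ℂ)⁻¹ ^ 2 + I * (‖x‖ : ℂ)⁻¹ ^ 3) * (‖x‖ : ℂ)) * he
        + ((x 2 : ℂ) * ((‖x‖ : ℂ)⁻¹ + I * (‖x‖ : ℂ)⁻¹ ^ 2)) * hb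
    rw [key, norm_mul, Complex.norm_I, mul_one, Complex.norm_real, Real.norm_eq_abs, abs_mul,
      abs_of_nonneg (by positivity : (0 : ℝ) ≤ ‖x‖⁻¹ ^ 2)]
    have hz : |x 2| ≤ ‖x‖ := abs_le_of_sq_le_sq (norm_z x) (norm_nonneg x)
    calc |x 2| * ‖x‖⁻¹ ^ 2 ≤ ‖x‖ * ‖x‖⁻¹ ^ 2 := by gcongr
      _ = ‖x‖⁻¹ := by field_simp

/-- There are a compact set `V ⊂ ℝ³` with smooth boundary, star-shaped about `0` and with
connected complement, and an outgoing radiating solution `u` of `Δu + u = 0` outside `V`, smooth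
up to the boundary, with Dirichlet and Neumann data not identically zero, whose integrated
Lagrangian is (finite and) strictly positive. -/
theorem result : ∃ (V : Set (EuclideanSpace ℝ (Fin 3))) (u : EuclideanSpace ℝ (Fin 3) → ℂ),
    SmoothCompact V ∧ StarConvex ℝ 0 V ∧ IsConnected Vᶜ ∧
    (∃ W : Set (EuclideanSpace ℝ (Fin 3)), IsOpen W ∧ closure Vᶜ ⊆ W ∧ ContDiffOn ℝ ∞ u W) ∧
    (∀ x ∈ Vᶜ, Δ u x + u x = 0) ∧
    Radiating u ∧
    (∃ p ∈ frontier V, u p ≠ 0) ∧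
    (∃ p ∈ frontier V, ∃ n, OuterUnitNormal V p n ∧ fderiv ℝ u p n ≠ 0) ∧
    IntegrableOn (density u) Vᶜ ∧
    0 < (1 / 2) * ∫ x in Vᶜ, density u x := by
  obtain ⟨e, he, he', hpos⟩ := exists_e
  have hne : ∀ x ∈ (VV e)ᶜ, x ≠ 0 := by
    rintro x hx rfl
    exact hx (zero_mem e)
  have hfp : pole e ∈ frontier (VV e) := mem_frontier_of e he (pole_ne e he) (FF_pole e he)
  have hm : MeasurableSet (VV e)ᶜ := (isClosed_VV e he).measurableSet.compl
  have hcongr : ∀ x ∈ (VV e)ᶜ, density uu x = DD x := fun x hx => lagr_uu x (hne x hx)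
  refine ⟨VV e, uu, ⟨isCompact_VV e he, ⟨0, zero_mem_interior e he⟩, ?_⟩, starConvex_VV e he,
    isConnected_compl e he, ⟨{0}ᶜ, isOpen_compl_singleton, ?_, ?_⟩, ?_, radiating_uu,
    ⟨pole e, hfp, u_pole e he⟩, ⟨pole e, hfp, EuclideanSpace.single 2 (1 : ℝ), ⟨?_, FF e, {0}ᶜ,
      localDefining e (pole_ne e he) (FF_pole e he), e + 1 / 4, by positivity,
      fderiv_pole e he⟩, du_pole e he⟩, ?_, ?_⟩
  · intro p hp
    obtain ⟨h1, h2⟩ := frontier_VV e he hp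
    exact ⟨FF e, {0}ᶜ, localDefining e h2 h1⟩
  · intro x hx hx0
    have hx0' : x = 0 := hx0
    rw [closure_compl, hx0'] at hx
    exact hx (zero_mem_interior e he)
  · intro x hx
    exact (contDiffAt_uu x hx).contDiffWithinAt
  · intro x hx
    rw [laplacian_uu x (hne x hx)]
    ring
  · rw [PiLp.norm_single]
    simp
  · exact (integrableOn_congr_fun hcongr hm).2 (integrableOn_compl e he he')
  · rw [setIntegral_congr_fun hm hcongr]
    positivity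

end

end Pool.Agent.Results.MP_871f9b_an.PositiveLagrangian
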